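import Pool.Agent.H92.EHD.TK
import Pool.Agent.H43.EQ.KJ

/-!
Board ehd_modules, row EKJ: the cutoff (after the row KJ of the board eqd_modules).
-/

namespace Pool.Agent.H10.EHD

open scoped BigOperators ComplexConjugate ContDiff ComplexOrder
open MeasureTheory Pool.Agent.H92.EQ Pool.Agent.H92.EHD Pool.Agent.H43.EQ

noncomputable section

/-- `relL F ^ 2`. -/
def rrL {k : ℕ} (F : Fin (k + 1) → MvPolynomial (Fin (k + 1)) ℂ) (y : Fin (k + 1) → ℂ) : ℝ :=
  ‖(low (jac F y)).det‖ ^ 2 * nsq y ^ k / nsq (ev F y) ^ k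

theorem ekj_low_smul {k : ℕ} (c : ℂ) (M : Matrix (Fin (k + 1)) (Fin (k + 1)) ℂ) :
    low (c • M) = c • low M := rfl

theorem ekj_low_one {k : ℕ} : low (1 : Matrix (Fin (k + 1)) (Fin (k + 1)) ℂ) = 1 := by
  unfold low
  exact Matrix.submatrix_one _ (Fin.succ_injective k)

theorem ekj_iter_zero {k d : ℕ} {F : Fin (k + 1) → MvPolynomial (Fin (k + 1)) ℂ}
    (hF : IsE d F) (l : ℕ) : iter F l 0 = MvPolynomial.X 0 ^ d ^ l := by
  induction l with
  | zero => simp [iter]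
  | succ n ih =>
    have h1 : iter F (n + 1) 0 = MvPolynomial.bind₁ (iter F n) (F 0) := rfl
    rw [h1, hF.zero, map_pow, MvPolynomial.bind₁_X_right, ih, ← pow_mul, pow_succ]

theorem ekj_row {k d : ℕ} {F : Fin (k + 1) → MvPolynomial (Fin (k + 1)) ℂ}
    (hF : IsE d F) (n : ℕ) (x : Fin (k + 1) → ℂ) (j : Fin k) :
    jac (iter F n) x 0 j.succ = 0 := by
  show MvPolynomial.eval x (MvPolynomial.pderiv j.succ (iter F n 0)) = 0
  rw [ekj_iter_zero hF, MvPolynomial.pderiv_pow,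
    MvPolynomial.pderiv_X_of_ne (Fin.succ_ne_zero j).symm]
  simp

theorem ekj_low_mul {k d : ℕ} {F : Fin (k + 1) → MvPolynomial (Fin (k + 1)) ℂ}
    (hF : IsE d F) {n : ℕ} {x : Fin (k + 1) → ℂ} (M : Matrix (Fin (k + 1)) (Fin (k + 1)) ℂ) :
    low (M * jac (iter F n) x) = low M * low (jac (iter F n) x) := by
  ext i j
  unfold low
  rw [Matrix.submatrix_apply, Matrix.mul_apply, Fin.sum_univ_succ, ekj_row hF, mul_zero,
    zero_add, Matrix.mul_apply]
  rfl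

theorem ekj_det_contDiff {k : ℕ} (h2 : T_W2) (F : Fin (k + 1) → MvPolynomial (Fin (k + 1)) ℂ) :
    ContDiff ℝ ∞ (fun y => (low (jac F y)).det) := by
  simp only [Matrix.det_apply']
  refine ContDiff.sum fun σ _ => ?_
  refine contDiff_const.mul ?_
  refine contDiff_prod fun i _ => ?_
  exact (h2 (Fin (k + 1)) 0 (MvPolynomial.pderiv i.succ (F (σ i).succ)) 0).2.2

theorem ekj_rr_hom0 {k d : ℕ} (h2 : T_W2) {F : Fin (k + 1) → MvPolynomial (Fin (k + 1)) ℂ}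
    (hd : 1 ≤ d) (hF : IsH d F) : Hom0 (rrL F) := by
  constructor
  · unfold rrL
    refine ContDiffOn.div ?_ ?_ ?_
    · exact (((ekj_det_contDiff h2 F).norm_sq ℝ).mul (KJ_nsq_contDiff.pow k)).contDiffOn
    · exact ((KJ_nsq_contDiff.comp (KJ_ev_contDiff h2 F)).pow k).contDiffOn
    · intro y hy
      exact pow_ne_zero _ (KJ_nsq_pos (KJ_ev_ne hF hy)).ne'
  · intro l z hl hz
    unfold rrL
    rw [KJ_jac_hom hF, ekj_low_smul, KJ_ev_hom hF, KJ_nsq_smul, KJ_nsq_smul, Matrix.det_smul,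
      Fintype.card_fin, norm_mul, norm_pow, norm_pow, norm_pow]
    have h1 : (0 : ℝ) < ‖l‖ := norm_pos_iff.2 hl
    have h3 := KJ_nsq_pos (KJ_ev_ne hF hz)
    obtain ⟨e, rfl⟩ : ∃ e, d = e + 1 := ⟨d - 1, by omega⟩
    rw [Nat.add_sub_cancel, mul_pow, mul_pow, mul_pow]
    have h4 : (‖l‖ ^ (e + 1)) ^ 2 = (‖l‖ ^ e) ^ 2 * ‖l‖ ^ 2 := by ring
    rw [h4, mul_pow]
    have h5 : ((‖l‖ ^ e) ^ k) ^ 2 = ((‖l‖ ^ e) ^ 2) ^ k := by ring
    rw [h5]
    field_simp

/-- `relL (iter F n) ^ 2` as a product. -/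
def RnL {k : ℕ} (F : Fin (k + 1) → MvPolynomial (Fin (k + 1)) ℂ) : ℕ → (Fin (k + 1) → ℂ) → ℝ
  | 0 => fun _ => 1
  | (n + 1) => fun x => RnL F n x * rrL F (ev (iter F n) x)

theorem ekj_Rn_hom0 {k d : ℕ} (h2 : T_W2) {F : Fin (k + 1) → MvPolynomial (Fin (k + 1)) ℂ}
    (hd : 1 ≤ d) (hF : IsH d F) (h12 : T_D12) (n : ℕ) : Hom0 (RnL F n) := by
  induction n with
  | zero => exact ⟨contDiffOn_const, fun _ _ _ _ => rfl⟩
  | succ n ih =>
    have hr := ekj_rr_hom0 h2 hd hF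
    refine ⟨?_, ?_⟩
    · refine ih.smooth.mul ?_
      refine hr.smooth.comp (KJ_ev_contDiff h2 (iter F n)).contDiffOn ?_
      intro y hy
      exact KJ_it_ne hF n hy
    · intro l z hl hz
      show RnL F n (l • z) * rrL F (ev (iter F n) (l • z)) = RnL F n z * rrL F (ev (iter F n) z)
      rw [ih.hom l z hl hz, KJ_ev_hom (h12 (k + 1) d F hd hF 0 n).1,
        hr.hom _ _ (pow_ne_zero _ hl) (KJ_it_ne hF n hz)]

theorem ekj_relL {k d : ℕ} {F : Fin (k + 1) → MvPolynomial (Fin (k + 1)) ℂ} (hE : IsE d F)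
    (n : ℕ) {x : Fin (k + 1) → ℂ} (hx : x ≠ 0) : RnL F n x = relL (iter F n) x ^ 2 := by
  have hF := hE.isH
  induction n with
  | zero =>
    show (1 : ℝ) = _
    unfold relL
    rw [KJ_jac_zero, KJ_ev_zero, ekj_low_one, Matrix.det_one, norm_one, one_mul,
      div_self (pow_ne_zero _ (KJ_nrm_pos hx).ne'), one_pow]
  | succ n ih =>
    show RnL F n x * rrL F (ev (iter F n) x) = _
    rw [ih]
    unfold relL rrL
    rw [KJ_jac_succ, KJ_ev_succ, ekj_low_mul hE, Matrix.det_mul, norm_mul, ← KJ_nrm_sq,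
      ← KJ_nrm_sq]
    have h1 := KJ_nrm_pos (KJ_it_ne hF n hx)
    have h2 := KJ_nrm_pos (KJ_ev_ne hF (KJ_it_ne hF n hx))
    field_simp
    ring

/-- The bounds of `RnL`. -/
theorem ekj_Rn_bd (h6 : T_L6) (hL1 : T_L1) (hL2 : T_L2) (hW6 : T_W6) (h2 : T_W2) (hW1 : T_W1)
    (hW3 : T_W3) (h12 : T_D12) {k d : ℕ} {F : Fin (k + 1) → MvPolynomial (Fin (k + 1)) ℂ}
    (hd : 2 ≤ d) (hF : IsH d F) : ∃ K : ℝ, 1 ≤ K ∧ ∀ (n : ℕ) (x : Fin (k + 1) → ℂ), x ≠ 0 →
      ∀ a, ‖wd a (cx (RnL F n)) x‖ * nrm x ≤ K ^ n := by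
  obtain ⟨K0, hK0, hit⟩ := KJ_it h6 (Nat.succ_pos k) hd hF
  have hr := ekj_rr_hom0 h2 (by omega) hF
  obtain ⟨B, hB, hb1, hb2⟩ := KJ_Hom0_bd h6 hL1 hL2 hW6 hr
  have hN1 : (1 : ℝ) ≤ ((k + 1 : ℕ) : ℝ) := by
    push_cast
    have : (0 : ℝ) ≤ k := Nat.cast_nonneg k
    linarith
  have hRn : ∀ n x, x ≠ 0 → |RnL F n x| ≤ B ^ n := by
    intro n
    induction n with
    | zero => intro x _; show |(1 : ℝ)| ≤ _; simp
    | succ n ih =>
      intro x hx
      show |RnL F n x * rrL F (ev (iter F n) x)| ≤ _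
      rw [abs_mul, pow_succ]
      exact mul_le_mul (ih x hx) (hb1 _ (KJ_it_ne hF n hx)) (abs_nonneg _) (by positivity)
  refine ⟨B * (1 + ((k + 1 : ℕ) : ℝ)) * K0, ?_, ?_⟩
  · have h1 : 1 ≤ B * (1 + ((k + 1 : ℕ) : ℝ)) := by nlinarith
    nlinarith
  intro n
  induction n with
  | zero =>
    intro x hx a
    have h0 : wd a (cx (RnL F 0)) x = 0 := by
      have : cx (RnL F 0) = fun _ => (1 : ℂ) := by
        funext w
        show ((1 : ℝ) : ℂ) = 1
        simp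
      rw [this]
      unfold wd
      simp
    rw [h0, norm_zero, zero_mul]
    norm_num
  | succ n ih =>
    intro x hx a
    have hy := KJ_it_ne hF n hx
    set y := ev (iter F n) x with hydef
    have hfun : cx (RnL F (n + 1)) =
        fun w => cx (RnL F n) w * (fun v => cx (rrL F) (ev (iter F n) v)) w := by
      funext w
      show ((RnL F n w * rrL F (ev (iter F n) w) : ℝ) : ℂ) = (RnL F n w : ℂ) *
        (rrL F (ev (iter F n) w) : ℂ)
      push_cast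
      rfl
    have hd1 : DifferentiableAt ℝ (cx (RnL F n)) x :=
      ((KJ_cx_contDiff (ekj_Rn_hom0 h2 (by omega) hF h12 n).smooth).contDiffAt
        (isOpen_compl_singleton.mem_nhds hx)).differentiableAt (by simp)
    have hd2 : DifferentiableAt ℝ (cx (rrL F)) y :=
      ((KJ_cx_contDiff hr.smooth).contDiffAt
        (isOpen_compl_singleton.mem_nhds hy)).differentiableAt (by simp)
    have hd3 : DifferentiableAt ℝ (fun v => cx (rrL F) (ev (iter F n) v)) x :=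
      DifferentiableAt.comp (g := cx (rrL F)) (f := ev (iter F n)) x hd2
        ((KJ_ev_contDiff h2 (iter F n)).differentiable (by simp) x)
    rw [hfun, (hW1 (Fin (k + 1)) a (cx (RnL F n)) (fun v => cx (rrL F) (ev (iter F n) v)) x hd1
      hd3).2.2.1,
      (hW3 (Fin (k + 1)) (Fin (k + 1)) (iter F n) (cx (rrL F)) x a hd2).1]
    have e1 : ‖cx (RnL F n) x‖ ≤ B ^ n := by
      show ‖((RnL F n x : ℝ) : ℂ)‖ ≤ _
      rw [Complex.norm_real]
      exact hRn n x hx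
    have e2 : ‖cx (rrL F) y‖ ≤ B := by
      show ‖((rrL F y : ℝ) : ℂ)‖ ≤ _
      rw [Complex.norm_real]
      exact hb1 y hy
    have e3 : ‖∑ i, jac (iter F n) x i a * wd i (cx (rrL F)) y‖ * nrm x ≤
        ((k + 1 : ℕ) : ℝ) * (K0 ^ n * B) := by
      calc _ ≤ (∑ i, ‖jac (iter F n) x i a * wd i (cx (rrL F)) y‖) * nrm x :=
            mul_le_mul_of_nonneg_right (norm_sum_le _ _) (KJ_nrm_nonneg _)
        _ = ∑ i, (‖jac (iter F n) x i a‖ * nrm x) * ‖wd i (cx (rrL F)) y‖ := by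
            rw [Finset.sum_mul]
            exact Finset.sum_congr rfl fun i _ => by rw [norm_mul]; ring
        _ ≤ ∑ i : Fin (k + 1), K0 ^ n * B := by
            refine Finset.sum_le_sum fun i _ => ?_
            calc _ ≤ (K0 ^ n * nrm y) * ‖wd i (cx (rrL F)) y‖ :=
                  mul_le_mul_of_nonneg_right ((hit n).1 x hx i a) (norm_nonneg _)
              _ = K0 ^ n * (‖wd i (cx (rrL F)) y‖ * nrm y) := by ring
              _ ≤ _ := mul_le_mul_of_nonneg_left (hb2 y hy i) (by positivity)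
        _ = _ := by rw [Finset.sum_const, Finset.card_univ, Fintype.card_fin, nsmul_eq_mul]
    have e4 := ih x hx a
    set K := B * (1 + ((k + 1 : ℕ) : ℝ)) * K0 with hKdef
    have hBK : B * K0 ≤ K := by
      rw [hKdef]
      nlinarith [mul_nonneg (by linarith : 0 ≤ B) (by linarith : 0 ≤ K0)]
    have hB1K : B * (1 + ((k + 1 : ℕ) : ℝ)) ≤ K := by
      rw [hKdef]
      have : 0 ≤ B * (1 + ((k + 1 : ℕ) : ℝ)) := by positivity
      nlinarith
    have hBK' : B ^ n * K0 ^ n ≤ K ^ n := by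
      rw [← mul_pow]
      exact pow_le_pow_left₀ (by positivity) hBK n
    calc ‖cx (RnL F n) x * ∑ i, jac (iter F n) x i a * wd i (cx (rrL F)) y +
          cx (rrL F) y * wd a (cx (RnL F n)) x‖ * nrm x
        ≤ (‖cx (RnL F n) x‖ * ‖∑ i, jac (iter F n) x i a * wd i (cx (rrL F)) y‖ +
            ‖cx (rrL F) y‖ * ‖wd a (cx (RnL F n)) x‖) * nrm x := by
          refine mul_le_mul_of_nonneg_right ?_ (KJ_nrm_nonneg _)
          refine (norm_add_le _ _).trans ?_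
          rw [norm_mul, norm_mul]
      _ = ‖cx (RnL F n) x‖ * (‖∑ i, jac (iter F n) x i a * wd i (cx (rrL F)) y‖ * nrm x) +
            ‖cx (rrL F) y‖ * (‖wd a (cx (RnL F n)) x‖ * nrm x) := by ring
      _ ≤ B ^ n * (((k + 1 : ℕ) : ℝ) * (K0 ^ n * B)) + B * K ^ n := by
          have := KJ_nrm_nonneg x
          gcongr
      _ = (B ^ n * K0 ^ n) * (((k + 1 : ℕ) : ℝ) * B) + B * K ^ n := by ring
      _ ≤ K ^ n * (((k + 1 : ℕ) : ℝ) * B) + B * K ^ n := by gcongr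
      _ = K ^ n * (B * (1 + ((k + 1 : ℕ) : ℝ))) := by ring
      _ ≤ K ^ n * K := by gcongr
      _ = K ^ (n + 1) := by rw [pow_succ]

/-- Row EKJ. -/
theorem pf_EKJ (h6 : T_L6) (hL1 : T_L1) (hL2 : T_L2) (hW6 : T_W6) (h2 : T_W2) (hW1 : T_W1)
    (hW3 : T_W3) (hW7 : T_W7) (h12 : T_D12) : T_EKJ := by
  intro k d F hk hd hE
  have hF := hE.isH
  obtain ⟨K0, hK0, hit⟩ := KJ_it h6 (Nat.succ_pos k) hd hF
  obtain ⟨K4, hK4, hR⟩ := ekj_Rn_bd h6 hL1 hL2 hW6 h2 hW1 hW3 h12 hd hF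
  obtain ⟨C0, hC0, hc⟩ := KJ_sT
  have hKge : 1 ≤ K4 + C0 + K0 ^ 2 := by nlinarith [sq_nonneg K0]
  set K := K4 + C0 + K0 ^ 2 with hK
  have hK0K : K0 ≤ K := by rw [hK]; nlinarith
  have hK02K : K0 ^ 2 ≤ K := by rw [hK]; linarith
  have hK4K : K4 ≤ K := by rw [hK]; nlinarith [sq_nonneg K0]
  have hC0K : C0 ≤ K := by rw [hK]; nlinarith [sq_nonneg K0]
  have hne : ∀ x : Fin (k + 1) → ℂ, nrm x = 1 → x ≠ 0 := by
    intro x hx h
    rw [h] at hx
    have : nrm (0 : Fin (k + 1) → ℂ) = 0 := by simp [nrm, nsq]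
    rw [this] at hx
    norm_num at hx
  refine ⟨K, hKge, fun n ρ hρ hρ1 => ?_⟩
  have hRh := ekj_Rn_hom0 h2 (by omega) hF h12 n
  set χ : ℝ → ℝ := fun t => Real.smoothTransition ((t / ρ ^ 2 - 1) / 3) with hχ
  have hχs : ContDiff ℝ ∞ χ := by
    rw [hχ]
    refine Real.smoothTransition.contDiff.comp ?_
    fun_prop
  have hχd : ∀ t, deriv χ t = deriv Real.smoothTransition ((t / ρ ^ 2 - 1) / 3) *
      (1 / ρ ^ 2 / 3) := by
    intro t
    have h1 : HasDerivAt (fun t : ℝ => (t / ρ ^ 2 - 1) / 3) (1 / ρ ^ 2 / 3) t :=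
      (((hasDerivAt_id t).div_const (ρ ^ 2)).sub_const 1).div_const 3
    have h2 : HasDerivAt Real.smoothTransition
        (deriv Real.smoothTransition ((t / ρ ^ 2 - 1) / 3)) ((t / ρ ^ 2 - 1) / 3) :=
      ((Real.smoothTransition.contDiff (n := 1)).differentiable (by simp) _).hasDerivAt
    exact (h2.comp t h1).deriv
  have hρ2 : 0 < ρ ^ 2 := by positivity
  refine ⟨fun x => χ (RnL F n x), ⟨?_, ?_⟩, ?_, ?_, ?_, ?_, ?_, ?_⟩
  · exact hχs.comp_contDiffOn hRh.smooth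
  · intro l z hl hz
    show χ (RnL F n (l • z)) = χ (RnL F n z)
    rw [hRh.hom l z hl hz]
  · intro x _
    exact ⟨Real.smoothTransition.nonneg _, Real.smoothTransition.le_one _⟩
  · intro x hx h
    refine Real.smoothTransition.one_of_one_le ?_
    rw [ekj_relL hE n hx]
    have h1 : (2 * ρ) ^ 2 ≤ relL (iter F n) x ^ 2 := pow_le_pow_left₀ (by positivity) h 2
    have h3 : 4 ≤ relL (iter F n) x ^ 2 / ρ ^ 2 := by
      rw [le_div_iff₀ hρ2]
      nlinarith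
    linarith
  · intro x hx a
    have hx0 := hne x hx
    have e1 := (hW7 (Fin (k + 1)) (RnL F n) (RnL F n) χ x (KJ_wd_eq hRh.smooth hx0)
      (KJ_wd_eq hRh.smooth hx0)
      ((hχs.of_le KJ_two_le).contDiffAt)).1 a
    show ‖wd a (cx fun w => χ (RnL F n w)) x‖ ≤ _
    rw [e1, norm_mul, Complex.norm_real, hχd]
    have e2 := hR n x hx0 a
    rw [hx, mul_one] at e2
    have e3 := hc ((RnL F n x / ρ ^ 2 - 1) / 3)
    rw [Real.norm_eq_abs, abs_mul, abs_of_nonneg (by positivity : 0 ≤ 1 / ρ ^ 2 / 3)]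
    calc |deriv Real.smoothTransition ((RnL F n x / ρ ^ 2 - 1) / 3)| * (1 / ρ ^ 2 / 3) *
          ‖wd a (cx (RnL F n)) x‖ ≤ C0 * (1 / ρ ^ 2 / 3) * K4 ^ n := by gcongr
      _ ≤ C0 * (1 / ρ ^ 2) * K4 ^ n := by
          have : 1 / ρ ^ 2 / 3 ≤ 1 / ρ ^ 2 := by
            have : 0 ≤ 1 / ρ ^ 2 := by positivity
            linarith
          gcongr
      _ ≤ K * (1 / ρ ^ 2) * K ^ n := by gcongr
      _ = K ^ (n + 1) / ρ ^ 2 := by rw [pow_succ]; ring
  · intro x hx i a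
    have e := (hit n).1 x (hne x hx) i a
    rw [hx, mul_one] at e
    refine e.trans (mul_le_mul_of_nonneg_right ?_ (KJ_nrm_nonneg _))
    calc K0 ^ n ≤ K ^ n := by gcongr
      _ ≤ K ^ (n + 1) := pow_le_pow_right₀ hKge (by omega)
  · intro x hx i a b
    have e := (hit n).2 x (hne x hx) i a b
    rw [hx, one_pow, mul_one] at e
    refine e.trans (mul_le_mul_of_nonneg_right ?_ (KJ_nrm_nonneg _))
    calc K0 ^ (2 * n) = (K0 ^ 2) ^ n := by rw [pow_mul]
      _ ≤ K ^ n := by gcongr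
      _ ≤ K ^ (n + 1) := pow_le_pow_right₀ hKge (by omega)
  · intro x hx hκ
    have hx0 := hne x hx
    have h1 : 0 < (RnL F n x / ρ ^ 2 - 1) / 3 := by
      by_contra h
      exact hκ (Real.smoothTransition.zero_of_nonpos (not_lt.1 h))
    have h3 : 1 < RnL F n x / ρ ^ 2 := by linarith
    rw [lt_div_iff₀ hρ2, one_mul, ekj_relL hE n hx0] at h3
    have hy := KJ_nrm_pos (KJ_it_ne hF n hx0)
    have h4 : 0 ≤ relL (iter F n) x := by
      unfold relL
      rw [hx]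
      positivity
    have h5 : ρ < relL (iter F n) x := lt_of_pow_lt_pow_left₀ 2 h4 h3
    unfold relL at h5
    rw [hx, one_pow, mul_one, lt_div_iff₀ (by positivity)] at h5
    exact h5.le

end

end Pool.Agent.H10.EHD
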